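import Mathlib

/-! The spreading lemma for systems of distinct representatives with heavy entries (for the constant `c_5`). -/

set_option autoImplicit false

namespace Pool.Agent.Helper78.C5

open Finset

variable {I X : Type} [Fintype I] [DecidableEq I] [Fintype X] [DecidableEq X]

/-- matchings -/
def Good (w : X → I → ℕ) (f : I → X) : Prop := Function.Injective f ∧ ∀ i, 1 ≤ w (f i) i

/-- the heavy positions -/
def hvy (w : X → I → ℕ) (f : I → X) : Finset I := univ.filter fun i => 2 ≤ w (f i) i

lemma mem_hvy {w : X → I → ℕ} {f : I → X} {i : I} : i ∈ hvy w f ↔ 2 ≤ w (f i) i := by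
  simp [hvy]

/-- maximal matchings -/
def Mx (w : X → I → ℕ) (f : I → X) : Prop := Good w f ∧ ∀ g, Good w g → (hvy w g).card ≤ (hvy w f).card

lemma inj_update {f : I → X} (hf : Function.Injective f) {i : I} {z : X} (hz : ∀ j, f j ≠ z) :
    Function.Injective (Function.update f i z) := by
  intro j k hjk
  by_cases hj : j = i
  · subst hj
    by_cases hk : k = j
    · exact hk.symm
    · rw [Function.update_self, Function.update_of_ne hk] at hjk
      exact absurd hjk.symm (hz k)
  · by_cases hk : k = i
    · subst hk
      rw [Function.update_self, Function.update_of_ne hj] at hjk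
      exact absurd hjk (hz j)
    · rw [Function.update_of_ne hj, Function.update_of_ne hk] at hjk
      exact hf hjk

lemma good_update {w : X → I → ℕ} {f : I → X} (hf : Good w f) {i : I} {z : X} (hz : ∀ j, f j ≠ z)
    (h1 : 1 ≤ w z i) : Good w (Function.update f i z) := by
  refine ⟨inj_update hf.1 hz, fun j => ?_⟩
  by_cases hj : j = i
  · subst hj
    rw [Function.update_self]
    exact h1
  · rw [Function.update_of_ne hj]
    exact hf.2 j

/-- the missing point of a maximal matching has all weights one -/
lemma mx_one {w : X → I → ℕ}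
    (hrule : ∀ (f : I → X) (i0 : I) (y : X), Function.Injective f → (∀ i, f i ≠ y) →
      (∀ i, i ≠ i0 → 1 ≤ w (f i) i) → ¬ (2 ≤ w (f i0) i0 ∧ 2 ≤ w y i0))
    (hrow : ∀ x, Fintype.card I ≤ ∑ i, w x i) {f : I → X} (hf : Mx w f) {z : X} (hz : ∀ i, f i ≠ z) :
    ∀ i, w z i = 1 := by
  have hle : ∀ i, w z i ≤ 1 := by
    intro i
    by_contra hc
    have h2 : 2 ≤ w z i := by omega
    by_cases h : 2 ≤ w (f i) i
    · exact hrule f i z hf.1.1 hz (fun j _ => hf.1.2 j) ⟨h, h2⟩
    · have hg := good_update hf.1 (i := i) hz (by omega)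
      have hm := hf.2 _ hg
      have hi : i ∉ hvy w f := fun hh => h (mem_hvy.1 hh)
      have hsub : insert i (hvy w f) ⊆ hvy w (Function.update f i z) := by
        intro j hj
        rw [mem_insert] at hj
        by_cases hji : j = i
        · subst hji
          rw [mem_hvy, Function.update_self]
          exact h2
        · rw [mem_hvy, Function.update_of_ne hji]
          exact mem_hvy.1 (hj.resolve_left hji)
      have hc1 := card_le_card hsub
      rw [card_insert_of_notMem hi] at hc1
      omega
  intro i
  by_contra hne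
  have h0 : w z i = 0 := by
    have := hle i
    omega
  have hlt : ∑ j, w z j < ∑ _j : I, 1 :=
    sum_lt_sum (fun j _ => hle j) ⟨i, mem_univ i, by omega⟩
  have := hrow z
  simp only [sum_const, card_univ, smul_eq_mul, mul_one] at hlt
  omega

lemma spread3 {w : X → I → ℕ} {f : I → X} {z a y : X} {i0 : I}
    (hf : Good w f) (hz : ∀ i, f i ≠ z) (h1 : ∀ i, w z i = 1)
    (hfa : f i0 = a) (hy : y ≠ a) :
    ∃ g : I → X, Function.Injective g ∧ g i0 = a ∧ (∀ i, g i ≠ y) ∧ ∀ i, i ≠ i0 → 1 ≤ w (g i) i := by
  by_cases hyz : ∀ i, f i ≠ y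
  · exact ⟨f, hf.1, hfa, hyz, fun i _ => hf.2 i⟩
  · push Not at hyz
    obtain ⟨l, hl⟩ := hyz
    have hl0 : i0 ≠ l := by
      rintro rfl
      exact hy (hl.symm.trans hfa)
    refine ⟨Function.update f l z, inj_update hf.1 hz, ?_, fun i => ?_, fun i _ => ?_⟩
    · rw [Function.update_of_ne hl0]
      exact hfa
    · by_cases hi : i = l
      · subst hi
        rw [Function.update_self]
        intro h
        exact hz i (hl.trans h.symm)
      · rw [Function.update_of_ne hi]
        intro h
        exact hi (hf.1 (h.trans hl.symm))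
    · exact (good_update hf (i := l) hz (by rw [h1 l])).2 i

theorem spread (w : X → I → ℕ)
    (hcard : Fintype.card X = Fintype.card I + 1)
    (hm : ∃ f : I → X, Function.Injective f ∧ ∀ i, 1 ≤ w (f i) i)
    (hrule : ∀ (f : I → X) (i0 : I) (y : X), Function.Injective f → (∀ i, f i ≠ y) →
      (∀ i, i ≠ i0 → 1 ≤ w (f i) i) → ¬ (2 ≤ w (f i0) i0 ∧ 2 ≤ w y i0))
    (hrow : ∀ x, Fintype.card I ≤ ∑ i, w x i)
    (a : X) (ha : Fintype.card I < ∑ i, w a i) (i0 : I) (h0 : 2 ≤ w a i0) (y : X) (hy : y ≠ a) :
    ∃ f : I → X, Function.Injective f ∧ f i0 = a ∧ (∀ i, f i ≠ y) ∧ ∀ i, i ≠ i0 → 1 ≤ w (f i) i := by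
  classical
  -- a maximal matching
  obtain ⟨f0, hf0⟩ := hm
  obtain ⟨f, hfm, hfx⟩ := exists_max_image (univ.filter fun f : I → X => Good w f)
    (fun f => (hvy w f).card) ⟨f0, by
      rw [mem_filter]
      exact ⟨mem_univ _, hf0⟩⟩
  rw [mem_filter] at hfm
  have hf : Mx w f := ⟨hfm.2, fun g hg => hfx g (by
    rw [mem_filter]
    exact ⟨mem_univ _, hg⟩)⟩
  -- the missing point
  have hmiss : ∀ g : I → X, Function.Injective g → ∃ z, (∀ i, g i ≠ z) ∧ ∀ x, (∀ i, g i ≠ x) → x = z := by
    intro g hg
    have hc : ((univ : Finset X) \ univ.image g).card = 1 := by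
      rw [card_sdiff_of_subset (subset_univ _), card_image_of_injective _ hg, card_univ, card_univ, hcard]
      omega
    obtain ⟨z, hz⟩ := card_eq_one.1 hc
    have hmem : ∀ x, x ∈ (univ : Finset X) \ univ.image g ↔ ∀ i, g i ≠ x := by
      intro x
      simp
    refine ⟨z, (hmem z).1 (by rw [hz]; exact mem_singleton_self z), fun x hx => ?_⟩
    have := (hmem x).2 hx
    rw [hz] at this
    exact mem_singleton.1 this
  have hone : ∀ g : I → X, Mx w g → ∀ z, (∀ i, g i ≠ z) → ∀ i, w z i = 1 := fun g hg z hz =>
    mx_one hrule hrow hg hz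
  have hza : ∀ z, (∀ i, w z i = 1) → z ≠ a := by
    rintro z hz rfl
    have h1 : ∑ i, w z i = Fintype.card I := by
      rw [sum_congr rfl fun i _ => hz i]
      simp
    omega
  obtain ⟨z, hz, hz1⟩ := hmiss f hf.1.1
  have hw1 := hone f hf z hz
  have hna := hza z hw1
  have hra : ∃ i, f i = a := by
    by_contra hc
    push Not at hc
    exact hna (hz1 a hc).symm
  obtain ⟨i1, hi1⟩ := hra
  by_cases h10 : i1 = i0
  · subst h10
    exact spread3 hf.1 hz hw1 hi1 hy
  · have hx' : ¬ 2 ≤ w (f i0) i0 := by
      intro h2
      refine hrule (Function.update f i1 z) i0 a (inj_update hf.1.1 hz) (fun i => ?_)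
        (fun i _ => (good_update hf.1 (i := i1) hz (by rw [hw1 i1])).2 i) ⟨?_, h0⟩
      · by_cases hi : i = i1
        · subst hi
          rw [Function.update_self]
          exact hna
        · rw [Function.update_of_ne hi]
          intro h
          exact hi (hf.1.1 (h.trans hi1.symm))
      · rw [Function.update_of_ne (Ne.symm h10)]
        exact h2
    -- the new maximal matching
    have hg1 : Good w (Function.update f i1 z) := good_update hf.1 (i := i1) hz (by rw [hw1 i1])
    have hmis1 : ∀ i, Function.update f i1 z i ≠ a := by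
      intro i
      by_cases hi : i = i1
      · subst hi
        rw [Function.update_self]
        exact hna
      · rw [Function.update_of_ne hi]
        intro h
        exact hi (hf.1.1 (h.trans hi1.symm))
    have hg2 : Good w (Function.update (Function.update f i1 z) i0 a) :=
      good_update hg1 (i := i0) hmis1 (by omega)
    have hcd : (hvy w f).card ≤ (hvy w (Function.update (Function.update f i1 z) i0 a)).card := by
      have hn0 : i0 ∉ (hvy w f).erase i1 := fun hh => hx' (mem_hvy.1 (mem_of_mem_erase hh))
      have hsub : insert i0 ((hvy w f).erase i1) ⊆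
          hvy w (Function.update (Function.update f i1 z) i0 a) := by
        intro j hj
        rw [mem_insert] at hj
        by_cases hj0 : j = i0
        · subst hj0
          rw [mem_hvy, Function.update_self]
          exact h0
        · have hj1 := hj.resolve_left hj0
          rw [mem_erase] at hj1
          rw [mem_hvy, Function.update_of_ne hj0, Function.update_of_ne hj1.1]
          exact mem_hvy.1 hj1.2
      have hc1 := card_le_card hsub
      rw [card_insert_of_notMem hn0] at hc1
      have hc2 := pred_card_le_card_erase (s := hvy w f) (a := i1)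
      omega
    have hmx : Mx w (Function.update (Function.update f i1 z) i0 a) :=
      ⟨hg2, fun g hg => (hf.2 g hg).trans hcd⟩
    obtain ⟨z', hz', _⟩ := hmiss _ hg2.1
    exact spread3 hg2 hz' (hone _ hmx z' hz') (Function.update_self _ _ _) hy

end Pool.Agent.Helper78.C5
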